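import Mathlib

set_option autoImplicit false

namespace Pool.Agent.Results.MP_f6aace_co.PartialTwoFold

/-- A (DP-)cover of the simple graph `G` whose cover graph has vertex type `W`. -/
structure Cover {V : Type} (G : SimpleGraph V) (W : Type) where
  /-- the cover graph -/
  H : SimpleGraph W
  /-- the lists -/
  L : V → Finset W
  /-- (1) the lists partition the vertices of the cover graph -/
  part : ∀ w : W, ∃! u : V, w ∈ L u
  /-- (2) every list induces a complete subgraph -/
  clique : ∀ u : V, ∀ x ∈ L u, ∀ y ∈ L u, x ≠ y → H.Adj x y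
  /-- (3) the edges between the lists of two adjacent vertices form a matching
  (every vertex of `L u` has at most one neighbour in `L v`; being quantified over all ordered
  pairs `(u, v)` this also says that every vertex of `L v` has at most one neighbour in `L u`) -/
  matching : ∀ u v : V, G.Adj u v → ∀ x ∈ L u, ∀ y ∈ L v, ∀ z ∈ L v,
    H.Adj x y → H.Adj x z → y = z
  /-- (4) there are no edges between the lists of distinct nonadjacent vertices -/
  nonadj : ∀ u v : V, u ≠ v → ¬ G.Adj u v → ∀ x ∈ L u, ∀ y ∈ L v, ¬ H.Adj x y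

/-- The cover is `m`-fold: all lists have exactly `m` elements. -/
def Cover.IsFold {V : Type} {G : SimpleGraph V} {W : Type} (C : Cover G W) (m : ℕ) : Prop :=
  ∀ u : V, (C.L u).card = m

/-- `G` has an `H`-colouring for every `m`-fold cover `(L, H)`: an independent set of the cover
graph of size `|V(G)|`. -/
def DPColorable {V : Type} [Fintype V] (G : SimpleGraph V) (m : ℕ) : Prop :=
  ∀ (W : Type) (C : Cover G W), C.IsFold m → ∃ S : Finset W, C.H.IsNIndepSet (Fintype.card V) S

/-- The DP-chromatic number. -/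
noncomputable def chiDP {V : Type} [Fintype V] (G : SimpleGraph V) : ℕ :=
  sInf {m : ℕ | DPColorable G m}

/-- The partial DP `t`-chromatic number `α_t^DP(G)`: the minimum, over all `t`-fold covers of
`G`, of the independence number of the cover graph. -/
noncomputable def alphaDP {V : Type} (G : SimpleGraph V) (t : ℕ) : ℕ :=
  sInf {a : ℕ | ∃ (W : Type) (C : Cover G W), C.IsFold t ∧ C.H.indepNum = a}

/-! ### Choosing from lists -/

section choosing

variable {W : Type}

/-- `MatchRel r A B`: between the sets `A` and `B` the relation `r` is a partial matching. -/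
def MatchRel (r : W → W → Prop) (A B : Finset W) : Prop :=
  (∀ x ∈ A, ∀ y ∈ B, ∀ z ∈ B, r x y → r x z → y = z) ∧
  (∀ y ∈ B, ∀ x ∈ A, ∀ z ∈ A, r x y → r z y → x = z)

theorem MatchRel.mono {r : W → W → Prop} {A B A' B' : Finset W} (h : MatchRel r A B)
    (hA : A' ⊆ A) (hB : B' ⊆ B) : MatchRel r A' B' :=
  ⟨fun x hx y hy z hz => h.1 x (hA hx) y (hB hy) z (hB hz),
   fun y hy x hx z hz => h.2 y (hB hy) x (hA hx) z (hA hz)⟩

open Classical in
/-- A partial matching between sets of size 3 extends to a bijection; in coordinates. -/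
theorem extend_matching {r : W → W → Prop} {A B : Finset W} (h : MatchRel r A B)
    (e : Fin 3 ≃ A) (hB : B.card = 3) :
    ∃ g : Fin 3 ≃ B, ∀ (i : Fin 3) (y : W), y ∈ B → r (e i) y → y = g i := by
  classical
  let s : Finset (Fin 3) := Finset.univ.filter (fun i => ∃ y ∈ B, r (e i) y)
  let f : Fin 3 → W := fun i => if hi : ∃ y ∈ B, r (e i) y then hi.choose else (e i : W)
  have hf : ∀ i (hi : ∃ y ∈ B, r (e i) y), f i ∈ B ∧ r (e i) (f i) := by
    intro i hi
    have : f i = hi.choose := by simp only [f]; rw [dif_pos hi]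
    rw [this]; exact hi.choose_spec
  have h1 : s.image f ⊆ B := by
    intro y hy
    rw [Finset.mem_image] at hy
    obtain ⟨i, hi, rfl⟩ := hy
    have hi' := (Finset.mem_filter.mp hi).2
    exact (hf i hi').1
  have h2 : Set.InjOn f s := by
    intro i hi j hj hij
    have hi' := (Finset.mem_filter.mp hi).2
    have hj' := (Finset.mem_filter.mp hj).2
    have a := hf i hi'
    have b := hf j hj'
    rw [← hij] at b
    have := h.2 (f i) a.1 (e i) (e i).2 (e j) (e j).2 a.2 b.2
    exact e.injective (Subtype.ext this)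
  obtain ⟨g, hg⟩ := Finset.exists_equiv_extend_of_card_eq (t := B) (by simp [hB]) h1 h2
  refine ⟨g, fun i y hy hr => ?_⟩
  have hi : ∃ y ∈ B, r (e i) y := ⟨y, hy, hr⟩
  have hs : i ∈ s := Finset.mem_filter.mpr ⟨Finset.mem_univ _, hi⟩
  rw [hg i hs]
  exact h.1 (e i) (e i).2 y hy (f i) (hf i hi).1 hr (hf i hi).2

/-- The finite check behind `χ_DP (K_1 ∨ C_4) = 3`. -/
theorem wheel_check : ∀ a b c d : Equiv.Perm (Fin 3), ∃ h x4 x5 x6 x7 : Fin 3,
    x4 ≠ h ∧ x5 ≠ h ∧ x6 ≠ h ∧ x7 ≠ h ∧ x6 ≠ a x4 ∧ x7 ≠ b x4 ∧ x6 ≠ c x5 ∧ x7 ≠ d x5 := by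
  decide +kernel

theorem wheel_choice {r : W → W → Prop} {A L4 L5 L6 L7 : Finset W}
    (cA : A.card = 3) (c4 : L4.card = 3) (c5 : L5.card = 3) (c6 : L6.card = 3) (c7 : L7.card = 3)
    (hA4 : MatchRel r A L4) (hA5 : MatchRel r A L5) (hA6 : MatchRel r A L6)
    (hA7 : MatchRel r A L7) (h46 : MatchRel r L4 L6) (h47 : MatchRel r L4 L7)
    (h56 : MatchRel r L5 L6) (h57 : MatchRel r L5 L7) :
    ∃ a ∈ A, ∃ x4 ∈ L4, ∃ x5 ∈ L5, ∃ x6 ∈ L6, ∃ x7 ∈ L7,
      ¬ r a x4 ∧ ¬ r a x5 ∧ ¬ r a x6 ∧ ¬ r a x7 ∧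
      ¬ r x4 x6 ∧ ¬ r x4 x7 ∧ ¬ r x5 x6 ∧ ¬ r x5 x7 := by
  classical
  have e : Fin 3 ≃ A := (Fintype.equivFinOfCardEq (by simp [cA])).symm
  obtain ⟨g4, hg4⟩ := extend_matching hA4 e c4
  obtain ⟨g5, hg5⟩ := extend_matching hA5 e c5
  obtain ⟨g6, hg6⟩ := extend_matching hA6 e c6
  obtain ⟨g7, hg7⟩ := extend_matching hA7 e c7
  obtain ⟨k46, hk46⟩ := extend_matching h46 g4 c6
  obtain ⟨k47, hk47⟩ := extend_matching h47 g4 c7
  obtain ⟨k56, hk56⟩ := extend_matching h56 g5 c6
  obtain ⟨k57, hk57⟩ := extend_matching h57 g5 c7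
  obtain ⟨h, x4, x5, x6, x7, n4, n5, n6, n7, n46, n47, n56, n57⟩ :=
    wheel_check (k46.trans g6.symm) (k47.trans g7.symm) (k56.trans g6.symm) (k57.trans g7.symm)
  have key : ∀ {B : Finset W} (g k : Fin 3 ≃ B) (i x : Fin 3),
      x ≠ (k.trans g.symm) i → (g x : W) ≠ k i := by
    intro B g k i x hne heq
    apply hne
    have h1 : g x = k i := Subtype.ext heq
    simp [← h1]
  have key2 : ∀ {B : Finset W} (g : Fin 3 ≃ B) (i x : Fin 3), x ≠ i → (g x : W) ≠ g i := by
    intro B g i x hne heq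
    exact hne (g.injective (Subtype.ext heq))
  refine ⟨e h, (e h).2, g4 x4, (g4 x4).2, g5 x5, (g5 x5).2, g6 x6, (g6 x6).2, g7 x7, (g7 x7).2,
    fun hr => ?_, fun hr => ?_, fun hr => ?_, fun hr => ?_, fun hr => ?_, fun hr => ?_,
    fun hr => ?_, fun hr => ?_⟩
  · exact key2 g4 h x4 n4 (hg4 h _ (g4 x4).2 hr)
  · exact key2 g5 h x5 n5 (hg5 h _ (g5 x5).2 hr)
  · exact key2 g6 h x6 n6 (hg6 h _ (g6 x6).2 hr)
  · exact key2 g7 h x7 n7 (hg7 h _ (g7 x7).2 hr)
  · exact key g6 k46 x4 x6 n46 (hk46 x4 _ (g6 x6).2 hr)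
  · exact key g7 k47 x4 x7 n47 (hk47 x4 _ (g7 x7).2 hr)
  · exact key g6 k56 x5 x6 n56 (hk56 x5 _ (g6 x6).2 hr)
  · exact key g7 k57 x5 x7 n57 (hk57 x5 _ (g7 x7).2 hr)

open Classical in
/-- Remove from `B` all elements related to `x`. -/
noncomputable def rem (r : W → W → Prop) (x : W) (B : Finset W) : Finset W :=
  B.filter (fun y => ¬ r x y)

theorem mem_rem {r : W → W → Prop} {x y : W} {B : Finset W} :
    y ∈ rem r x B ↔ y ∈ B ∧ ¬ r x y := by
  simp [rem]

theorem rem_subset {r : W → W → Prop} {x : W} {B : Finset W} : rem r x B ⊆ B := by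
  intro y hy
  exact (mem_rem.mp hy).1

theorem card_rem {r : W → W → Prop} {x : W} {B : Finset W}
    (h : ∀ y ∈ B, ∀ z ∈ B, r x y → r x z → y = z) : B.card ≤ (rem r x B).card + 1 := by
  classical
  have h1 : (B.filter (fun y => r x y)).card ≤ 1 := by
    rw [Finset.card_le_one]
    intro a ha b hb
    rw [Finset.mem_filter] at ha hb
    exact h a ha.1 b hb.1 ha.2 hb.2
  have h2 := Finset.card_filter_add_card_filter_not (s := B) (fun y => r x y)
  have h3 : (rem r x B).card = (B.filter (fun y => ¬ r x y)).card := by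
    simp [rem]
  omega

end choosing

/-! ### The graph `(K_1 ∪ K_3) ∨ C_4` -/

/-- Adjacency rows of the example. -/
def exRow : Fin 8 → ℕ := ![240, 252, 250, 246, 207, 207, 63, 63]

/-- The graph `(K_1 ∪ K_3) ∨ C_4`: vertex `0` is the `K_1`, vertices `1,2,3` the `K_3` and
`4-6-5-7-4` the `C_4`. -/
def exG : SimpleGraph (Fin 8) where
  Adj i j := (exRow i).testBit j = true
  symm := ⟨by decide⟩
  loopless := ⟨by decide⟩

instance : DecidableRel exG.Adj := fun i j =>
  inferInstanceAs (Decidable ((exRow i).testBit j = true))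

theorem colorable_five : DPColorable exG 5 := by
  classical
  intro W C hC
  have hm : ∀ u v : Fin 8, exG.Adj u v → ∀ x ∈ C.L u, ∀ B ⊆ C.L v,
      B.card ≤ (rem C.H.Adj x B).card + 1 := by
    intro u v huv x hx B hB
    exact card_rem (fun y hy z hz => C.matching u v huv x hx y (hB hy) z (hB hz))
  have hM : ∀ u v : Fin 8, exG.Adj u v → MatchRel C.H.Adj (C.L u) (C.L v) := by
    intro u v huv
    refine ⟨C.matching u v huv, fun y hy x hx z hz h1 h2 => ?_⟩
    exact C.matching v u huv.symm y hy x hx z hz h1.symm h2.symm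
  -- choose the colour of vertex 3
  obtain ⟨x3, hx3⟩ : (C.L 3).Nonempty := by
    rw [← Finset.card_pos, hC 3]; norm_num
  -- choose the colour of vertex 2
  obtain ⟨x2, hx2⟩ : (rem C.H.Adj x3 (C.L 2)).Nonempty := by
    have := hm 3 2 (by decide) x3 hx3 (C.L 2) (Finset.Subset.refl _)
    rw [hC 2] at this
    rw [← Finset.card_pos]; omega
  have hx2L : x2 ∈ C.L 2 := rem_subset hx2
  have h32 : ¬ C.H.Adj x3 x2 := (mem_rem.mp hx2).2
  -- the remaining lists
  have hT : ∀ i : Fin 8, exG.Adj 3 i → exG.Adj 2 i →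
      ∃ T ⊆ C.L i, T.card = 3 ∧ ∀ y ∈ T, ¬ C.H.Adj x3 y ∧ ¬ C.H.Adj x2 y := by
    intro i h3 h2
    have a := hm 3 i h3 x3 hx3 (C.L i) (Finset.Subset.refl _)
    have b := hm 2 i h2 x2 hx2L (rem C.H.Adj x3 (C.L i)) rem_subset
    rw [hC i] at a
    obtain ⟨T, hTs, hTc⟩ := Finset.exists_subset_card_eq
      (s := rem C.H.Adj x2 (rem C.H.Adj x3 (C.L i))) (n := 3) (by omega)
    refine ⟨T, hTs.trans (rem_subset.trans rem_subset), hTc, fun y hy => ?_⟩
    have := mem_rem.mp (hTs hy)
    exact ⟨(mem_rem.mp this.1).2, this.2⟩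
  obtain ⟨T1, hT1, c1, d1⟩ := hT 1 (by decide) (by decide)
  obtain ⟨T4, hT4, c4, d4⟩ := hT 4 (by decide) (by decide)
  obtain ⟨T5, hT5, c5, d5⟩ := hT 5 (by decide) (by decide)
  obtain ⟨T6, hT6, c6, d6⟩ := hT 6 (by decide) (by decide)
  obtain ⟨T7, hT7, c7, d7⟩ := hT 7 (by decide) (by decide)
  obtain ⟨x1, hx1, x4, hx4, x5, hx5, x6, hx6, x7, hx7, n14, n15, n16, n17, n46, n47, n56, n57⟩ :=
    wheel_choice (r := C.H.Adj) c1 c4 c5 c6 c7
      ((hM 1 4 (by decide)).mono hT1 hT4) ((hM 1 5 (by decide)).mono hT1 hT5)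
      ((hM 1 6 (by decide)).mono hT1 hT6) ((hM 1 7 (by decide)).mono hT1 hT7)
      ((hM 4 6 (by decide)).mono hT4 hT6) ((hM 4 7 (by decide)).mono hT4 hT7)
      ((hM 5 6 (by decide)).mono hT5 hT6) ((hM 5 7 (by decide)).mono hT5 hT7)
  -- choose the colour of vertex 0
  obtain ⟨x0, hx0⟩ :
      (rem C.H.Adj x7 (rem C.H.Adj x6 (rem C.H.Adj x5 (rem C.H.Adj x4 (C.L 0))))).Nonempty := by
    have a := hm 4 0 (by decide) x4 (hT4 hx4) (C.L 0) (Finset.Subset.refl _)
    have b := hm 5 0 (by decide) x5 (hT5 hx5) (rem C.H.Adj x4 (C.L 0)) rem_subset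
    have c := hm 6 0 (by decide) x6 (hT6 hx6) (rem C.H.Adj x5 (rem C.H.Adj x4 (C.L 0)))
      (rem_subset.trans rem_subset)
    have d := hm 7 0 (by decide) x7 (hT7 hx7)
      (rem C.H.Adj x6 (rem C.H.Adj x5 (rem C.H.Adj x4 (C.L 0))))
      (rem_subset.trans (rem_subset.trans rem_subset))
    rw [hC 0] at a
    rw [← Finset.card_pos]; omega
  have g1 := mem_rem.mp hx0
  have g2 := mem_rem.mp g1.1
  have g3 := mem_rem.mp g2.1
  have g4 := mem_rem.mp g3.1
  -- assemble
  let w : Fin 8 → W := ![x0, x1, x2, x3, x4, x5, x6, x7]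
  have hw : ∀ i, w i ∈ C.L i := by
    intro i
    fin_cases i
    · exact g4.1
    · exact hT1 hx1
    · exact hx2L
    · exact hx3
    · exact hT4 hx4
    · exact hT5 hx5
    · exact hT6 hx6
    · exact hT7 hx7
  have hlt : ∀ i j : Fin 8, i < j → ¬ C.H.Adj (w i) (w j) := by
    intro i j hij
    by_cases hadj : exG.Adj i j
    · have e04 : ¬ C.H.Adj x0 x4 := fun h => g4.2 h.symm
      have e05 : ¬ C.H.Adj x0 x5 := fun h => g3.2 h.symm
      have e06 : ¬ C.H.Adj x0 x6 := fun h => g2.2 h.symm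
      have e07 : ¬ C.H.Adj x0 x7 := fun h => g1.2 h.symm
      have e12 : ¬ C.H.Adj x1 x2 := fun h => (d1 x1 hx1).2 h.symm
      have e13 : ¬ C.H.Adj x1 x3 := fun h => (d1 x1 hx1).1 h.symm
      have e23 : ¬ C.H.Adj x2 x3 := fun h => h32 h.symm
      have e24 := (d4 x4 hx4).2
      have e25 := (d5 x5 hx5).2
      have e26 := (d6 x6 hx6).2
      have e27 := (d7 x7 hx7).2
      have e34 := (d4 x4 hx4).1
      have e35 := (d5 x5 hx5).1
      have e36 := (d6 x6 hx6).1
      have e37 := (d7 x7 hx7).1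
      revert hij hadj
      fin_cases i <;> fin_cases j <;> intro hij hadj <;>
        first
        | (exfalso; revert hij; decide)
        | (exfalso; revert hadj; decide)
        | assumption
    · exact C.nonadj i j hij.ne hadj _ (hw i) _ (hw j)
  have hne : ∀ i j : Fin 8, i ≠ j → ¬ C.H.Adj (w i) (w j) := by
    intro i j hij
    rcases lt_or_gt_of_ne hij with h | h
    · exact hlt i j h
    · exact fun h' => hlt j i h h'.symm
  have hinj : Function.Injective w := by
    intro i j hij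
    obtain ⟨u, -, hu⟩ := C.part (w i)
    have a := hu i (hw i)
    have b := hu j (by rw [hij]; exact hw j)
    rw [a, b]
  refine ⟨Finset.univ.image w, ?_, ?_⟩
  · intro x hx y hy hxy
    simp only [Finset.coe_image, Finset.coe_univ, Set.image_univ, Set.mem_range] at hx hy
    obtain ⟨i, rfl⟩ := hx
    obtain ⟨j, rfl⟩ := hy
    exact hne i j (fun h => hxy (by rw [h]))
  · rw [Finset.card_image_of_injective _ hinj]; simp

/-! ### Lower bound `χ_DP ≥ 5` -/

/-- The cover of `G` that encodes ordinary `m`-colouring. -/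
def idCover {V : Type} [Fintype V] [DecidableEq V] (G : SimpleGraph V) (m : ℕ) :
    Cover G (V × Fin m) where
  H :=
    { Adj := fun x y => (x.1 = y.1 ∧ x.2 ≠ y.2) ∨ (G.Adj x.1 y.1 ∧ x.2 = y.2)
      symm := ⟨by
        intro x y h
        rcases h with h | h
        · exact Or.inl ⟨h.1.symm, h.2.symm⟩
        · exact Or.inr ⟨h.1.symm, h.2.symm⟩⟩
      loopless := ⟨by
        intro x h
        rcases h with h | h
        · exact h.2 rfl
        · exact G.loopless.irrefl _ h.1⟩ }
  L u := Finset.univ.filter (fun x => x.1 = u)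
  part := by
    intro w
    refine ⟨w.1, by simp, ?_⟩
    intro u hu
    simp only [Finset.mem_filter, Finset.mem_univ, true_and] at hu
    exact hu.symm
  clique := by
    intro u x hx y hy hxy
    simp only [Finset.mem_filter, Finset.mem_univ, true_and] at hx hy
    refine Or.inl ⟨hx.trans hy.symm, fun h => hxy (Prod.ext (hx.trans hy.symm) h)⟩
  matching := by
    intro u v huv x hx y hy z hz hxy hxz
    simp only [Finset.mem_filter, Finset.mem_univ, true_and] at hx hy hz
    have key : ∀ t : V × Fin m, t.1 = v →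
        ((x.1 = t.1 ∧ x.2 ≠ t.2) ∨ (G.Adj x.1 t.1 ∧ x.2 = t.2)) → x.2 = t.2 := by
      intro t ht h
      rcases h with h | h
      · exfalso
        apply huv.ne
        rw [← hx, ← ht]; exact h.1
      · exact h.2
    exact Prod.ext (hy.trans hz.symm) ((key y hy hxy).symm.trans (key z hz hxz))
  nonadj := by
    intro u v huv hG x hx y hy h
    simp only [Finset.mem_filter, Finset.mem_univ, true_and] at hx hy
    rcases h with h | h
    · exact huv (hx.symm.trans (h.1.trans hy))
    · exact hG (by rw [← hx, ← hy]; exact h.1)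

theorem idCover_isFold {V : Type} [Fintype V] [DecidableEq V] (G : SimpleGraph V) (m : ℕ) :
    (idCover G m).IsFold m := by
  intro u
  have : (idCover G m).L u = ({u} : Finset V) ×ˢ (Finset.univ : Finset (Fin m)) := by
    ext ⟨a, b⟩
    simp only [idCover, Finset.mem_filter, Finset.mem_univ, true_and, Finset.mem_product,
      Finset.mem_singleton, and_true]
  rw [this, Finset.card_product]
  simp

theorem not_colorable {m : ℕ} (hm : m < 5) : ¬ DPColorable exG m := by
  classical
  intro h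
  obtain ⟨S, hS, hc⟩ := h _ (idCover exG m) (idCover_isFold exG m)
  -- every list is hit
  have hsub : ∀ x ∈ S, ∀ y ∈ S, x.1 = y.1 → x = y := by
    intro x hx y hy hxy
    by_contra hne
    exact hS hx hy hne (Or.inl ⟨hxy, fun h2 => hne (Prod.ext hxy h2)⟩)
  have himg : (S.image Prod.fst) = Finset.univ := by
    apply Finset.eq_univ_of_card
    rw [Finset.card_image_of_injOn (fun x hx y hy hxy => hsub x hx y hy hxy), hc]
  have hcol : ∀ u : Fin 8, ∃ i : Fin m, (u, i) ∈ S := by
    intro u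
    have : u ∈ S.image Prod.fst := by rw [himg]; exact Finset.mem_univ _
    obtain ⟨⟨a, b⟩, hab, rfl⟩ := Finset.mem_image.mp this
    exact ⟨b, hab⟩
  choose c hcS using hcol
  have hproper : ∀ u v : Fin 8, exG.Adj u v → c u ≠ c v := by
    intro u v huv hcc
    refine hS (hcS u) (hcS v) ?_ (Or.inr ⟨huv, hcc⟩)
    intro h
    exact huv.ne (congrArg Prod.fst h)
  -- the clique 1,2,3,4,6
  let q : Fin 5 → Fin 8 := ![1, 2, 3, 4, 6]
  have hq : ∀ i j : Fin 5, i ≠ j → exG.Adj (q i) (q j) := by decide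
  have hinj : Function.Injective (fun i => c (q i)) := by
    intro i j hij
    by_contra hne
    exact hproper _ _ (hq i j hne) hij
  have := Fintype.card_le_of_injective _ hinj
  simp at this
  omega

theorem chiDP_exG : chiDP exG = 5 := by
  apply le_antisymm
  · exact Nat.sInf_le colorable_five
  · by_contra hlt
    rw [not_le] at hlt
    have hmem : chiDP exG ∈ {m : ℕ | DPColorable exG m} :=
      Nat.sInf_mem ⟨5, colorable_five⟩
    exact not_colorable hlt hmem

/-! ### A `2`-fold cover with independence number `3` -/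

/-- Adjacency rows of a cover graph on 16 vertices; the list of `u` is `{2u, 2u+1}`. -/
def hRow : Fin 16 → ℕ := ![26114, 39169, 21848, 43684, 21860, 43672, 21908, 43624,
  37462, 25001, 22613, 42154, 9558, 6825, 34389, 18858]

/-- The cover graph. -/
def exH : SimpleGraph (Fin 16) where
  Adj i j := (hRow i).testBit j = true
  symm := ⟨by decide +kernel⟩
  loopless := ⟨by decide +kernel⟩

instance : DecidableRel exH.Adj := fun i j =>
  inferInstanceAs (Decidable ((hRow i).testBit j = true))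

theorem match_check : ∀ x y z : Fin 16, exH.Adj x y → exH.Adj x z →
    y.val / 2 = z.val / 2 → x.val / 2 ≠ y.val / 2 → y = z := by
  decide +kernel

/-- The 2-fold cover. -/
def exCover : Cover exG (Fin 16) where
  H := exH
  L u := Finset.univ.filter (fun x => x.val / 2 = u.val)
  part := by
    intro w
    refine ⟨⟨w.val / 2, by omega⟩, by simp, ?_⟩
    intro u hu
    simp only [Finset.mem_filter, Finset.mem_univ, true_and] at hu
    exact Fin.ext hu.symm
  clique := by decide +kernel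
  matching := by
    intro u v huv x hx y hy z hz hxy hxz
    simp only [Finset.mem_filter, Finset.mem_univ, true_and] at hx hy hz
    refine match_check x y z hxy hxz (hy.trans hz.symm) ?_
    rw [hx, hy]
    exact fun h => huv.ne (Fin.ext h)
  nonadj := by decide +kernel

theorem exCover_isFold : exCover.IsFold 2 := by
  unfold Cover.IsFold
  decide +kernel

theorem no_indep_four : ∀ a b : Fin 16, a < b → ∀ c : Fin 16, b < c → ∀ d : Fin 16, c < d →
    (exH.Adj a b ∨ exH.Adj a c ∨ exH.Adj a d ∨ exH.Adj b c ∨ exH.Adj b d ∨ exH.Adj c d) := by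
  decide +kernel

theorem indepNum_exH_le : exH.indepNum ≤ 3 := by
  classical
  by_contra hlt
  rw [not_le] at hlt
  obtain ⟨S, hS⟩ := exH.exists_isNIndepSet_indepNum
  obtain ⟨T, hTS, hT⟩ := Finset.exists_subset_card_eq (s := S) (n := 4) (by rw [hS.2]; omega)
  let f := T.orderEmbOfFin hT
  have hf : ∀ i, f i ∈ S := fun i => hTS (Finset.orderEmbOfFin_mem T hT i)
  have hlt : ∀ i j : Fin 4, i < j → ¬ exH.Adj (f i) (f j) := by
    intro i j hij
    exact hS.1 (hf i) (hf j) (fun h => hij.ne (f.injective h))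
  have h01 : f 0 < f 1 := f.strictMono (by decide)
  have h12 : f 1 < f 2 := f.strictMono (by decide)
  have h23 : f 2 < f 3 := f.strictMono (by decide)
  have := no_indep_four (f 0) (f 1) h01 (f 2) h12 (f 3) h23
  rcases this with h | h | h | h | h | h
  · exact hlt 0 1 (by decide) h
  · exact hlt 0 2 (by decide) h
  · exact hlt 0 3 (by decide) h
  · exact hlt 1 2 (by decide) h
  · exact hlt 1 3 (by decide) h
  · exact hlt 2 3 (by decide) h

/-- The cover graph of a `t`-fold cover of `exG` with `t ≥ 2` has an independent set of size 3. -/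
theorem three_le {W : Type} (C : Cover exG W) (hC : C.IsFold 2) : 3 ≤ C.H.indepNum := by
  classical
  -- W is finite
  have hfin : Finite W := by
    have hu : ∀ w : W, ∃ u : Fin 8, w ∈ C.L u := fun w => (C.part w).exists
    choose f hf using hu
    have : Set.univ ⊆ (((Finset.univ : Finset (Fin 8)).biUnion C.L : Finset W) : Set W) := by
      intro w _
      simp only [Finset.coe_biUnion, Set.mem_iUnion]
      exact ⟨f w, by simp, hf w⟩
    exact Set.finite_univ_iff.mp (Set.Finite.subset (Finset.finite_toSet _) this)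
  -- colour the path 0 - 4 - 1
  obtain ⟨x4, hx4⟩ : (C.L 4).Nonempty := by rw [← Finset.card_pos, hC 4]; norm_num
  have key : ∀ i : Fin 8, exG.Adj 4 i → ∃ x ∈ C.L i, ¬ C.H.Adj x4 x := by
    intro i hi
    have := card_rem (r := C.H.Adj) (x := x4) (B := C.L i) (C.matching 4 i hi x4 hx4)
    rw [hC i] at this
    obtain ⟨x, hx⟩ : (rem C.H.Adj x4 (C.L i)).Nonempty := by
      rw [← Finset.card_pos]; omega
    exact ⟨x, (mem_rem.mp hx).1, (mem_rem.mp hx).2⟩
  obtain ⟨x0, hx0, h0⟩ := key 0 (by decide)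
  obtain ⟨x1, hx1, h1⟩ := key 1 (by decide)
  have h01 : ¬ C.H.Adj x0 x1 := C.nonadj 0 1 (by decide) (by decide) x0 hx0 x1 hx1
  have huniq : ∀ {u v : Fin 8} {x y : W}, x ∈ C.L u → y ∈ C.L v → u ≠ v → x ≠ y := by
    intro u v x y hx hy huv hxy
    subst hxy
    exact huv ((C.part x).unique hx hy)
  have n01 : x0 ≠ x1 := huniq hx0 hx1 (by decide)
  have n04 : x0 ≠ x4 := huniq hx0 hx4 (by decide)
  have n14 : x1 ≠ x4 := huniq hx1 hx4 (by decide)
  have hI : C.H.IsIndepSet (({x0, x1, x4} : Finset W) : Set W) := by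
    intro a ha b hb hab hadj
    simp only [Finset.coe_insert, Finset.coe_singleton, Set.mem_insert_iff,
      Set.mem_singleton_iff] at ha hb
    rcases ha with rfl | rfl | rfl <;> rcases hb with rfl | rfl | rfl
    · exact hab rfl
    · exact h01 hadj
    · exact h0 hadj.symm
    · exact h01 hadj.symm
    · exact hab rfl
    · exact h1 hadj.symm
    · exact h0 hadj
    · exact h1 hadj
    · exact hab rfl
  have := hI.card_le_indepNum
  rw [Finset.card_eq_three.mpr ⟨x0, x1, x4, n01, n04, n14, rfl⟩] at this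
  exact this

theorem alphaDP_exG : alphaDP exG 2 = 3 := by
  have hmem : exCover.H.indepNum ∈
      {a : ℕ | ∃ (W : Type) (C : Cover exG W), C.IsFold 2 ∧ C.H.indepNum = a} :=
    ⟨Fin 16, exCover, exCover_isFold, rfl⟩
  apply le_antisymm
  · exact (Nat.sInf_le hmem).trans indepNum_exH_le
  · obtain ⟨W, C, hC, hα⟩ := Nat.sInf_mem ⟨_, hmem⟩
    have h3 := three_le C hC
    rw [hα] at h3
    exact h3

/-- **Answer to Q1 (yes).** There is a graph `G` (on 8 vertices) with `χ_DP(G) = 5 > 3` and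
`α_2^DP(G) = 3 < 16/5 = 2 |V(G)| / χ_DP(G)`. -/
theorem result : ∃ G : SimpleGraph (Fin 8),
    chiDP G = 5 ∧ alphaDP G 2 = 3 ∧
    3 < chiDP G ∧ (alphaDP G 2 : ℚ) < 2 * (Fintype.card (Fin 8) : ℚ) / (chiDP G : ℚ) := by
  refine ⟨exG, chiDP_exG, alphaDP_exG, ?_, ?_⟩
  · rw [chiDP_exG]; norm_num
  · rw [chiDP_exG, alphaDP_exG]; norm_num

end Pool.Agent.Results.MP_f6aace_co.PartialTwoFold
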